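import Pool.Agent.Q275.IdentProof

set_option autoImplicit false

namespace Pool.Agent.Results.MP_4c2ece_co.NoFunction

open Pool.Agent.Q275 Pool.Agent.Q275.Ident

/-- The question has a negative answer, and connected graphs with `id ≤ 2` suffice: some
minor-closed class `H` admits, for every `n`, a connected finite graph that has a
`2`-identification to `H` and can be contracted into `H`, but not by fewer than `n` edge
contractions. -/
theorem result :
    (∃ H : GraphClass, MinorClosed H ∧ ∀ n : ℕ,
      ∃ (V : Type) (_ : Finite V) (G : SimpleGraph V), G.Connected ∧ IdLe H G 2 ∧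
        (∃ k, EcLe H G k) ∧ ∀ k, EcLe H G k → n ≤ k) ∧
    ¬ Question :=
  ⟨exists_class, not_question⟩

end Pool.Agent.Results.MP_4c2ece_co.NoFunction
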